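import Mathlib

/-!
Definitions: random closed sets, selections, posterior upper probability, alternation.
-/

set_option autoImplicit false
open MeasureTheory Set
open scoped ENNReal NNReal

namespace Pool.Agent.MP_bae362_pr

/-- `X` is a random closed set: closed values, and hitting a compact set is an event. -/
structure IsRandomClosedSet {Ω E : Type*} [MeasurableSpace Ω] [TopologicalSpace E]
    (X : Ω → Set E) : Prop where
  closed : ∀ ω, IsClosed (X ω)
  meas : ∀ K : Set E, IsCompact K → MeasurableSet {ω | (X ω ∩ K).Nonempty}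

/-- The distributions of all measurable selections of `X`. -/
def selectionLaws {Ω E : Type*} [MeasurableSpace Ω] [MeasurableSpace E] (μ : Measure Ω)
    (X : Ω → Set E) : Set (Measure E) :=
  {P | ∃ ξ : Ω → E, Measurable ξ ∧ (∀ᵐ ω ∂μ, ξ ω ∈ X ω) ∧ P = μ.map ξ}

/-- The contamination class: all `(1 - ε) P + ε Q` with `Q` a probability measure. -/
def contamination {E : Type*} [MeasurableSpace E] (ε : ℝ≥0) (P : Measure E) : Set (Measure E) :=
  {P' | ∃ Q : Measure E, IsProbabilityMeasure Q ∧ P' = (1 - ε) • P + ε • Q}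

/-- The posterior upper probability of `A`: the supremum of the posterior probabilities of `A`
over the priors of the family for which the posterior is defined. -/
noncomputable def postUpper {E : Type*} [MeasurableSpace E] (C : Set (Measure E)) (L : E → ℝ≥0)
    (A : Set E) : ℝ :=
  (⨆ P ∈ {P ∈ C | 0 < ∫⁻ x, L x ∂P ∧ ∫⁻ x, L x ∂P < ∞},
    (∫⁻ x in A, L x ∂P) / ∫⁻ x, L x ∂P).toReal

/-- `v` is `n`-alternating on measurable sets. -/
def IsAlternating {E : Type*} [MeasurableSpace E] (n : ℕ) (v : Set E → ℝ) : Prop :=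
  ∀ A : Fin n → Set E, (∀ i, MeasurableSet (A i)) →
    v (⋂ i, A i) ≤ ∑ I ∈ (Finset.univ : Finset (Finset (Fin n))).filter (fun I => I.Nonempty),
      (-1 : ℝ) ^ (I.card + 1) * v (⋃ i ∈ I, A i)

end Pool.Agent.MP_bae362_pr
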